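import Mathlib
import Pool.Agent.Helper66K9.CH.App

/-!
# Linear statistics of the blocks of the Liouville function

Let `w` be a real function on `ℤ / n`, `a` and `b` coprime, and let `C` be `-λ(a) λ(b)` times the sum of
`w (a k) w (b k)` over `k` modulo `n`. If `a b κ² < C`, then the sum of `w j * λ (m + j)` over
`1 ≤ j ≤ n` is at least `κ`, with the sign `+`, for a positive proportion of the `m`.
-/

set_option autoImplicit false

namespace Pool.Agent.Results.MP_4fffd4_nt.DilationCorrelations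

open Finset

/-- the Liouville function `λ(n) = (-1)^Ω(n)` -/
noncomputable def lam (n : ℕ) : ℝ := (-1 : ℝ) ^ ArithmeticFunction.cardFactors n

open Classical in
/-- the set `E` of natural numbers has logarithmic density zero -/
def LogDensityZero (E : Set ℕ) : Prop :=
  Filter.Tendsto (fun X : ℕ => (∑ n ∈ Icc 1 X, if n ∈ E then (1 : ℝ) / n else 0) / Real.log X)
    Filter.atTop (nhds 0)

theorem result (n a b : ℕ) (ha : 1 ≤ a) (hb : 1 ≤ b) (hab : Nat.Coprime a b)
    (w : ℕ → ℝ) (hw : ∀ j, w (j + n) = w j) (C : ℝ)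
    (hC : C = -(lam a * lam b * ∑ k ∈ Icc 1 n, w (a * k) * w (b * k)))
    (κ : ℝ) (hκ0 : 0 ≤ κ) (hκ : a * b * κ ^ 2 < C) :
    LogDensityZero {N : ℕ | (((range (2 * (a + b) * N)).filter
      (fun m => κ ≤ ∑ j ∈ Icc 1 n, w j * lam (m + j))).card : ℝ) <
        (C - a * b * κ ^ 2) / (2 * a * b * (a + b) * (κ + ∑ j ∈ Icc 1 n, |w j|) ^ 2) * N} :=
  Helper66K9.CH.periodic ha hb hab w hw hC hκ0 hκ

end Pool.Agent.Results.MP_4fffd4_nt.DilationCorrelations
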