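import Pool.Agent.Helper84K9.IS.Fin

/-!
# Every infinite set of places contains an infinite subset on which the Liouville function has all
# sign patterns

Let `A 0 < A 1 < ...` be any integers and let `S` be any set of positive upper logarithmic density.
There is a subsequence `A (i 0) < A (i 1) < ...` such that on every finite subset of it all the sign
patterns of the Liouville function occur, even with starting points `n ∈ S`: along one sequence of
scales the number of the starting points `n ∈ S` of each of the `2 ^ k` patterns on `k` places of the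
subsequence is `(1 ± δ) 2 ^ (-k)` times the number of all `n ∈ S`. The subsequence is not sparse:
`i k` is at most `4 ^ k` times a power of `k`, so that among the first `m` places there are at least
`(1/2 - o(1)) log₂ m` chosen ones.

The proof uses the two point theorem at almost all scales (in the form of
`Pool.Agent.R509.TT.exc`, from the starting files): the shifts of the Liouville function are
asymptotically orthonormal. By Bessel's inequality every bounded function is nearly uncorrelated with
all but a bounded number of the shifts.
-/

set_option autoImplicit false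

open scoped Classical

namespace Pool.Agent.Results.MP_4fffd4_nt.IndependentShifts

open Finset Filter

/-- the Liouville function -/
def lam (n : ℕ) : ℤ := (-1) ^ ArithmeticFunction.cardFactors n

/-- the number of the members of `S` below `N` -/
noncomputable def count (S : Set ℕ) (N : ℕ) : ℕ := ((range N).filter fun n => n ∈ S).card

/-- the upper logarithmic density of `S` is larger than `s` -/
def UpperLogDensityGT (S : Set ℕ) (s : ℝ) : Prop :=
  ∃ t : ℝ, s < t ∧ ∃ᶠ X : ℕ in atTop,
    t * Real.log X ≤ ∑ n ∈ Icc 1 X, if n ∈ S then (1 : ℝ) / n else 0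

/-- Let `A 0 < A 1 < ...` be natural numbers, let the upper logarithmic density of the set `S` be
larger than `s > 0` (for instance `S` = all natural numbers, any `s < 1`), and let `0 < δ ≤ 1`. There
are indices `i 0 < i 1 < ...` with `i k + 1 ≤ 4 ^ (k + 1) ((k + 1) (k + 2)) ^ 2 / (s δ ^ 2)` and scales
`N 0 < N 1 < ...` with the following property. For every finite set `F` of numbers `k` and all signs
`ε k` the set of the `n ∈ S` with `λ(n + A (i k)) = ε k` for all `k ∈ F` has
`(1 + θ) 2 ^ (-|F|) count S (N j)`, `|θ| ≤ δ`, members below `N j`, for all large `j`; and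
`count S (N j) ≥ s N j`. -/
theorem result (A : ℕ → ℕ) (hA : StrictMono A) (S : Set ℕ) (s : ℝ) (hs : 0 < s)
    (hS : UpperLogDensityGT S s) (δ : ℝ) (hδ : 0 < δ) (hδ1 : δ ≤ 1) :
    ∃ i : ℕ → ℕ, StrictMono i ∧
      (∀ k, (i k : ℝ) + 1 ≤ 4 ^ (k + 1) * ((k + 1 : ℝ) * (k + 2)) ^ 2 / (s * δ ^ 2)) ∧
      ∃ N : ℕ → ℕ, StrictMono N ∧ ∀ (F : Finset ℕ) (ε : ℕ → ℤ), (∀ k, ε k = 1 ∨ ε k = -1) →
        ∀ᶠ j in atTop, s * N j ≤ count S (N j) ∧
          |2 ^ F.card * (count {n | n ∈ S ∧ ∀ k ∈ F, lam (n + A (i k)) = ε k} (N j) : ℝ) -
            count S (N j)| ≤ δ * count S (N j) :=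
  Pool.Agent.Helper84K9.IS.main A hA S s hs hS δ hδ hδ1

end Pool.Agent.Results.MP_4fffd4_nt.IndependentShifts
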