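import Pool.Agent.TH823.MRS.Circ5
import Pool.Agent.Helper82K9.EL.EL9
import Pool.Agent.Helper4.SP.HypC

/-!
# All sign patterns of the Liouville function at almost all tuples of places from sparse sets, at every scale

The Matomaki-Radziwill theorem for the Liouville function along sparse families of shifts with a small additive energy
(`Pool.Agent.TH823.MRS`) is in the starting files. New: the additive energies of high order of the sequences `[φ(m)]`,
and of the sets of the integers `m` for which the fractional part of `φ(m)` lies in a short interval, have the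
smallest possible order of magnitude, uniformly in the smooth function `φ` (`Pool.Agent.Helper4.SP`), and the passage to
the patterns at tuples of places from different families.
From Mathlib: `Fintype.piFinset S`: the tuples `m` with `m j ∈ S j` for all `j`; `Finset.Icc 1 X`: the integers from
`1` to `X`.
-/

set_option autoImplicit false

namespace Pool.Agent.Results.MP_4fffd4_nt.SparsePlaces

open Finset

/-- The Liouville function (it is used only at integers `m ≥ 1`). -/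
def lam (m : ℤ) : ℤ := (-1) ^ ArithmeticFunction.cardFactors m.toNat

open Classical in
/-- The number of the elements of `S` with the property `F`. -/
noncomputable def number {ι : Type} (S : Finset ι) (F : ι → Prop) : ℝ := ((S.filter F).card : ℝ)

/-- All the sign patterns have the expected frequency `2 ^ (-k)` at the places `a j * n + b j + s j`, `j < k`, when
`n` runs through `T ∩ {1, ..., X}`, up to `ε N`, for all `X` with `a j * X ≤ B N` for all `j`. -/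
def AllPatterns {k : ℕ} (B N : ℕ) (ε : ℝ) (T : Set ℕ) (a b : Fin k → ℕ) (s : Fin k → ℤ) : Prop :=
  ∀ X : ℕ, (∀ j, a j * X ≤ B * N) → ∀ e : Fin k → ℤ, (∀ j, e j = 1 ∨ e j = -1) →
    |number (Icc 1 X) (fun n => n ∈ T ∧ ∀ j, lam (a j * n + b j + s j) = e j) -
      number (Icc 1 X) (fun n => n ∈ T) / 2 ^ k| ≤ ε * N

/-- The additive energy of order `p` of the family `s m`, `m ∈ S`: the number of the solutions in `S` of
`s x₁ + ... + s x_p = s y₁ + ... + s y_p`. -/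
noncomputable def energy (p : ℕ) (S : Finset ℕ) (s : ℕ → ℤ) : ℕ :=
  Nat.card {q : (Fin p → {n // n ∈ S}) × (Fin p → {n // n ∈ S}) // ∑ j, s (q.1 j) = ∑ j, s (q.2 j)}

/-- The smooth functions `φ 0`: here `φ j` is the derivative of order `j` of `φ 0` on `[M, 2 M + 1]` for
`0 ≤ j ≤ d + 2`; the number `M ^ (d + 1) |φ ^ (d + 1) (t)|` is between `F / C` and `F C`, and the derivative of order
`d + 2` does not change its sign. -/
structure Phase (d : ℕ) (C F : ℝ) (M : ℕ) (φ : ℕ → ℝ → ℝ) : Prop where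
  der : ∀ j ≤ d + 1, ∀ t ∈ Set.Icc (M : ℝ) (2 * M + 1), HasDerivAt (φ j) (φ (j + 1) t) t
  low : ∀ t ∈ Set.Icc (M : ℝ) (2 * M + 1), F ≤ (M : ℝ) ^ (d + 1) * |φ (d + 1) t| * C
  high : ∀ t ∈ Set.Icc (M : ℝ) (2 * M + 1), (M : ℝ) ^ (d + 1) * |φ (d + 1) t| ≤ F * C
  mono : (∀ t ∈ Set.Icc (M : ℝ) (2 * M + 1), φ (d + 2) t ≤ 0) ∨
    (∀ t ∈ Set.Icc (M : ℝ) (2 * M + 1), 0 ≤ φ (d + 2) t)

/-- The families of places: `Family d δ C H S s` says that the numbers `s m`, `m ∈ S`, are one of these.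

* (primes) the primes up to `H`;
* (polynomials) the values at `1, ..., x` of an integer polynomial of degree `d` with a leading coefficient at most `C`,
  where `H ≤ C x ^ d`;
* (values) `c₀ + κ ⌊φ(m)⌋` for at least `M / C` integers `m ∈ (M, 2 M]`, where `φ` is smooth, `H ≤ C F` and
  `F ≤ M ^ (d + 1 - δ)`;
* (parts) `c₀ + κ m` for at least `lam M / C` integers `m ∈ (M, 2 M]` with `{φ(m) - c} ≤ lam`, where `φ` is smooth,
  `H ≤ C M`, `M ^ δ ≤ F ≤ M ^ (d + 1 - δ)`, `lam ≥ M ^ (- δ / (d 2 ^ (d + 2)))`;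
* (energy) a family whose additive energy of order `d` is at most `C (#S) ^ (2 d) / H`. -/
inductive Family (d : ℕ) (δ C : ℝ) (H : ℕ) : Finset ℕ → (ℕ → ℤ) → Prop
  | primes : Family d δ C H ((Icc 1 H).filter Nat.Prime) (fun p => (p : ℤ))
  | polynomials (x : ℕ) (P : Polynomial ℤ) : P.natDegree = d → |(P.leadingCoeff : ℝ)| ≤ C → (H : ℝ) ≤ C * (x : ℝ) ^ d →
      Family d δ C H (Icc 1 x) (fun m => P.eval (m : ℤ))
  | values (M : ℕ) (F : ℝ) (φ : ℕ → ℝ → ℝ) (S : Finset ℕ) (κ c₀ : ℤ) : Phase d C F M φ → H ≤ C * F →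
      F ≤ (M : ℝ) ^ ((d : ℝ) + 1 - δ) → S ⊆ Ioc M (2 * M) → (M : ℝ) ≤ C * S.card → κ ≠ 0 →
      Family d δ C H S (fun m => c₀ + κ * ⌊φ 0 (m : ℝ)⌋)
  | parts (M : ℕ) (F : ℝ) (φ : ℕ → ℝ → ℝ) (S : Finset ℕ) (κ c₀ : ℤ) (c lam : ℝ) : Phase d C F M φ → (H : ℝ) ≤ C * M →
      (M : ℝ) ^ δ ≤ F → F ≤ (M : ℝ) ^ ((d : ℝ) + 1 - δ) → (M : ℝ) ^ (-(δ / (d * 2 ^ (d + 2)))) ≤ lam →
      S ⊆ Ioc M (2 * M) → (∀ m ∈ S, Int.fract (φ 0 (m : ℝ) - c) ≤ lam) → lam * M ≤ C * S.card → κ ≠ 0 →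
      Family d δ C H S (fun m => c₀ + κ * (m : ℤ))
  | energy (S : Finset ℕ) (s : ℕ → ℤ) : (energy d S s : ℝ) * H ≤ C * (S.card : ℝ) ^ (2 * d) → Family d δ C H S s

/-! ## One place -/

/-- small correlations at one shift -/
def SmallC (B N : ℕ) (ε : ℝ) (g : ℕ → ℂ) (a : ℕ) (b : ℕ) (s : ℤ) : Prop :=
  ∀ X : ℕ, a * X ≤ B * N → ‖∑ n ∈ Icc 1 X, g n * Pool.Agent.H373R2.T7.exI Pool.Agent.H373R2.T7.liR (a * n + b + s)‖ ≤ ε * N

/-- the conclusion for one place -/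
def AlmostAll (B N : ℕ) (ε : ℝ) (S : Finset ℕ) (s : ℕ → ℤ) : Prop :=
  ∀ (g : ℕ → ℂ), (∀ n, ‖g n‖ ≤ 1) → ∀ a b : ℕ, 1 ≤ a → b ≤ B * N →
    number S (fun m => ¬ SmallC B N ε g a b (s m)) ≤ ε * S.card

lemma small_of {B N : ℕ} {ε : ℝ} {g : ℕ → ℂ} {a b : ℕ} {s : ℤ}
    (h : Pool.Agent.TH823.MRS.Sm Pool.Agent.H373R2.T7.liR 1 B N ε (fun _ => a) (fun _ => (b : ℤ)) (fun _ => g) s) :
    SmallC B N ε g a b s := fun X hX => h 0 X hX

lemma number_le {S : Finset ℕ} {F G : ℕ → Prop} (h : ∀ m ∈ S, F m → G m) :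
    number S F ≤ Pool.Agent.TH823.MRS.nu S G := by
  classical
  unfold number Pool.Agent.TH823.MRS.nu
  apply Nat.cast_le.2
  apply card_le_card
  intro m hm
  rw [mem_filter] at hm ⊢
  exact ⟨hm.1, h m hm.1 hm.2⟩

lemma one_energy (B : ℕ) (ε : ℝ) (hε : 0 < ε) (p : ℕ) (D : ℝ) : ∃ A : ℕ, ∀ N H : ℕ, A ≤ H → H ≤ N →
    ∀ (S : Finset ℕ) (s : ℕ → ℤ), (∀ m ∈ S, |s m| ≤ H) →
      (energy p S s : ℝ) * H ≤ D * (S.card : ℝ) ^ (2 * p) → AlmostAll B N ε S s := by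
  classical
  obtain ⟨H₀, N₀, hA⟩ := Pool.Agent.TH823.MRS.gen Pool.Agent.H373R2.T7.liR Pool.Agent.H373R2.T7.liR_norm
    Pool.Agent.TH823.MRS.liR_E B 1 ε hε p D
  refine ⟨H₀ + N₀, fun N H hH hHN S s hs hen g hg a b ha hb => ?_⟩
  rcases S.eq_empty_or_nonempty with rfl | hne
  · simp [number]
  have : Nonempty {n // n ∈ S} := ⟨⟨hne.choose, hne.choose_spec⟩⟩
  obtain ⟨u, hinj, hsurj⟩ := Pool.Agent.TH212.EH.enum {n // n ∈ S}
  rw [Fintype.card_coe] at hsurj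
  have hen2 := Pool.Agent.TH212.EH.energy_enum p (fun i : {n // n ∈ S} => s i.1) u 0 hinj
  rw [Fintype.card_coe] at hen2
  have hen3 : ((Pool.Agent.H373R2.T7.energy p S.card (fun m => s (u m).1 - 0) : ℕ) : ℝ) * H ≤
      D * (S.card : ℝ) ^ (2 * p) := by
    refine le_trans ?_ hen
    have hen4 : ((Pool.Agent.H373R2.T7.energy p S.card (fun m => s (u m).1 - 0) : ℕ) : ℝ) ≤ energy p S s := by
      exact_mod_cast hen2
    gcongr
  have h1 := hA N H (by omega) (by omega) hHN S.card (fun m => s (u m).1 - 0)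
    (fun m _ => by rw [sub_zero]; exact hs _ (u m).2) hen3 (fun _ => a) (fun _ => (b : ℤ)) (fun _ => g) (fun _ => ha)
    (fun _ => by exact_mod_cast hb) (fun _ => hg)
  refine le_trans ?_ h1
  unfold number Pool.Agent.TH823.MRS.nu
  apply Nat.cast_le.2
  have key : S.filter (fun m => ¬ SmallC B N ε g a b (s m)) ⊆
      ((Icc 1 S.card).filter (fun m => ¬ Pool.Agent.TH823.MRS.Sm Pool.Agent.H373R2.T7.liR 1 B N ε (fun _ => a)
        (fun _ => (b : ℤ)) (fun _ => g) (s (u m).1 - 0))).image (fun m => (u m).1) := by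
    intro n hn
    rw [mem_filter] at hn
    obtain ⟨m, hm, hmn⟩ := hsurj ⟨n, hn.1⟩
    rw [mem_image]
    refine ⟨m, mem_filter.2 ⟨hm, ?_⟩, by rw [hmn]⟩
    rw [hmn, sub_zero]
    exact fun h => hn.2 (small_of h)
  refine le_trans (le_of_eq ?_) ((card_le_card key).trans (card_image_le.trans (le_of_eq ?_)))
  · congr
  · congr

lemma one_primes (B : ℕ) (ε : ℝ) (hε : 0 < ε) : ∃ A : ℕ, ∀ N H : ℕ, A ≤ H → H ≤ N →
    AlmostAll B N ε ((Icc 1 H).filter Nat.Prime) (fun p => (p : ℤ)) := by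
  obtain ⟨H₀, N₀, hA⟩ := Pool.Agent.TH823.MRS.pri Pool.Agent.H373R2.T7.liR Pool.Agent.H373R2.T7.liR_norm
    Pool.Agent.TH823.MRS.liR_E B 1 ε hε
  refine ⟨H₀ + N₀, fun N H hH hHN g hg a b ha hb => ?_⟩
  have h1 := hA N H (by omega) (by omega) hHN (fun _ => a) (fun _ => (b : ℤ)) (fun _ => g) (fun _ => ha)
    (fun _ => by exact_mod_cast hb) (fun _ => hg)
  have hpc : Nat.primeCounting H = ((Icc 1 H).filter Nat.Prime).card := by
    rw [Nat.primeCounting, Nat.primeCounting', Nat.count_eq_card_filter_range]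
    congr 1
    ext p
    simp only [mem_filter, mem_range, mem_Icc]
    constructor
    · rintro ⟨h5, h6⟩
      exact ⟨⟨h6.one_lt.le, by omega⟩, h6⟩
    · rintro ⟨h5, h6⟩
      exact ⟨by omega, h6⟩
  rw [← hpc]
  exact (number_le fun m _ hm h => hm (small_of h)).trans h1

lemma one_poly (B : ℕ) (ε : ℝ) (hε : 0 < ε) (d : ℕ) (hd : 1 ≤ d) (C : ℝ) (hC : 1 ≤ C) : ∃ A : ℕ, ∀ N H : ℕ, A ≤ H → H ≤ N →
    ∀ (x : ℕ) (P : Polynomial ℤ), P.natDegree = d → |(P.leadingCoeff : ℝ)| ≤ C → (H : ℝ) ≤ C * (x : ℝ) ^ d →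
      (∀ m ∈ Icc 1 x, |P.eval (m : ℤ)| ≤ H) → AlmostAll B N ε (Icc 1 x) (fun m => P.eval (m : ℤ)) := by
  obtain ⟨h, A₀, hA₀, hen⟩ := Pool.Agent.Helper82K9.EL.energy_unif d hd
  obtain ⟨H₀, N₀, hA⟩ := Pool.Agent.TH823.MRS.gen Pool.Agent.H373R2.T7.liR Pool.Agent.H373R2.T7.liR_norm
    Pool.Agent.TH823.MRS.liR_E B 1 ε hε h (C * (2 * (A₀ * C) ^ 2))
  refine ⟨H₀ + N₀, fun N H hH hHN x P hP hPl hHx hs g hg a b ha hb => ?_⟩
  rcases Nat.eq_zero_or_pos x with hx | hx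
  · subst hx
    simp [number]
  have h1 := hA N H (by omega) (by omega) hHN x (fun m => P.eval (m : ℤ)) hs (by
    have e1 := hen x hx P hP
    calc (Pool.Agent.H373R2.T7.energy h x (fun m => P.eval (m : ℤ)) : ℝ) * H ≤
        (Pool.Agent.H373R2.T7.energy h x (fun m => P.eval (m : ℤ)) : ℝ) * (C * (x : ℝ) ^ d) := by gcongr
      _ = C * ((Pool.Agent.H373R2.T7.energy h x (fun m => P.eval (m : ℤ)) : ℝ) * (x : ℝ) ^ d) := by ring
      _ ≤ C * (2 * (A₀ * |(P.leadingCoeff : ℝ)|) ^ 2 * (x : ℝ) ^ (2 * h)) := by gcongr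
      _ ≤ C * (2 * (A₀ * C) ^ 2 * (x : ℝ) ^ (2 * h)) := by gcongr
      _ = _ := by ring) (fun _ => a) (fun _ => (b : ℤ)) (fun _ => g) (fun _ => ha)
    (fun _ => by exact_mod_cast hb) (fun _ => hg)
  rw [Nat.card_Icc, Nat.add_sub_cancel]
  exact (number_le fun m _ hm h => hm (small_of h)).trans h1

lemma one_values (B : ℕ) (ε : ℝ) (hε : 0 < ε) (k : ℕ) (hk : 1 ≤ k) (δ C : ℝ) (hδ : 0 < δ) (hδ1 : δ ≤ 1) (hC : 1 ≤ C) :
    ∃ A : ℕ, ∀ N H : ℕ, A ≤ H → H ≤ N → ∀ (M : ℕ) (F : ℝ) (φ : ℕ → ℝ → ℝ) (S : Finset ℕ) (κ c₀ : ℤ),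
      Phase k C F M φ → H ≤ C * F → F ≤ (M : ℝ) ^ ((k : ℝ) + 1 - δ) → S ⊆ Ioc M (2 * M) → (M : ℝ) ≤ C * S.card →
      κ ≠ 0 → (∀ m ∈ S, |c₀ + κ * ⌊φ 0 (m : ℝ)⌋| ≤ H) → AlmostAll B N ε S (fun m => c₀ + κ * ⌊φ 0 (m : ℝ)⌋) := by
  obtain ⟨p1, D1, M1, hD1, hv⟩ := Pool.Agent.Helper4.SP.valE k hk δ hδ hδ1 C hC
  obtain ⟨A1, hA1⟩ := one_energy B ε hε p1 (C * D1)
  obtain ⟨A3, hA3⟩ := exists_nat_ge (C * ((M1 : ℝ) + 1) ^ ((k : ℝ) + 1 - δ))
  have hexp' : 0 < (k : ℝ) + 1 - δ := by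
    have : (1 : ℝ) ≤ k := by exact_mod_cast hk
    linarith
  refine ⟨A1 + (A3 + 1), fun N H hH hHN M F φ S κ c₀ hφ hHF hF2 hS hSc hκ hs => ?_⟩
  have hHR : ((A3 : ℝ) + 1) ≤ H := by exact_mod_cast (by omega : A3 + 1 ≤ H)
  have hCF : C * ((M1 : ℝ) + 1) ^ ((k : ℝ) + 1 - δ) ≤ C * F := by linarith
  have hF3 : ((M1 : ℝ) + 1) ^ ((k : ℝ) + 1 - δ) ≤ F := le_of_mul_le_mul_left hCF (by linarith)
  have hF1 : 1 ≤ F := by
    refine le_trans ?_ hF3
    exact Real.one_le_rpow (by have : (0 : ℝ) ≤ M1 := Nat.cast_nonneg _; linarith) hexp'.le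
  have hM : M1 ≤ M := by
    by_contra hcon
    push Not at hcon
    have h1 : (M : ℝ) < (M1 : ℝ) + 1 := by
      have : (M : ℝ) < M1 := by exact_mod_cast hcon
      linarith
    have h2 := Real.rpow_lt_rpow (Nat.cast_nonneg M) h1 hexp'
    linarith
  have hen := hv M hM F hF1 hF2 φ ⟨hφ.der, hφ.low, hφ.high, hφ.mono⟩ S hS hSc κ c₀ hκ
  refine hA1 N H (by omega) hHN S (fun m => c₀ + κ * ⌊φ 0 (m : ℝ)⌋) hs ?_
  calc (energy p1 S (fun m => c₀ + κ * ⌊φ 0 (m : ℝ)⌋) : ℝ) * H ≤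
      (energy p1 S (fun m => c₀ + κ * ⌊φ 0 (m : ℝ)⌋) : ℝ) * (C * F) := by gcongr
    _ = C * ((energy p1 S (fun m => c₀ + κ * ⌊φ 0 (m : ℝ)⌋) : ℝ) * F) := by ring
    _ ≤ C * (D1 * (S.card : ℝ) ^ (2 * p1)) := mul_le_mul_of_nonneg_left hen (by linarith)
    _ = _ := by ring

lemma one_parts (B : ℕ) (ε : ℝ) (hε : 0 < ε) (k : ℕ) (hk : 1 ≤ k) (δ C : ℝ) (hδ : 0 < δ) (hδ1 : δ ≤ 1) (hC : 1 ≤ C) :
    ∃ A : ℕ, ∀ N H : ℕ, A ≤ H → H ≤ N → ∀ (M : ℕ) (F : ℝ) (φ : ℕ → ℝ → ℝ) (S : Finset ℕ) (κ c₀ : ℤ) (c lam : ℝ),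
      Phase k C F M φ → (H : ℝ) ≤ C * M → (M : ℝ) ^ δ ≤ F → F ≤ (M : ℝ) ^ ((k : ℝ) + 1 - δ) →
      (M : ℝ) ^ (-(δ / (k * 2 ^ (k + 2)))) ≤ lam → S ⊆ Ioc M (2 * M) →
      (∀ m ∈ S, Int.fract (φ 0 (m : ℝ) - c) ≤ lam) → lam * M ≤ C * S.card → κ ≠ 0 →
      (∀ m ∈ S, |c₀ + κ * (m : ℤ)| ≤ H) → AlmostAll B N ε S (fun m => c₀ + κ * (m : ℤ)) := by
  obtain ⟨p2, D2, M2, hD2, hf⟩ := Pool.Agent.Helper4.SP.fracE k hk δ hδ hδ1 C hC
  obtain ⟨A2, hA2⟩ := one_energy B ε hε p2 (C * D2)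
  obtain ⟨A4, hA4⟩ := exists_nat_ge (C * ((M2 : ℝ) + 1))
  refine ⟨A2 + (A4 + 1), fun N H hH hHN M F φ S κ c₀ c lam hφ hHM hF1 hF2 hlam hS hSI hSc hκ hs => ?_⟩
  have hHR : ((A4 : ℝ) + 1) ≤ H := by exact_mod_cast (by omega : A4 + 1 ≤ H)
  have hM : M2 ≤ M := by
    have h1 : C * ((M2 : ℝ) + 1) ≤ C * M := by linarith
    have h2 : (M2 : ℝ) + 1 ≤ M := le_of_mul_le_mul_left h1 (by linarith)
    exact_mod_cast (by linarith : (M2 : ℝ) ≤ M)
  have hen := hf M hM F hF1 hF2 φ ⟨hφ.der, hφ.low, hφ.high, hφ.mono⟩ c lam hlam S hS hSI hSc κ c₀ hκ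
  refine hA2 N H (by omega) hHN S (fun m => c₀ + κ * (m : ℤ)) hs ?_
  calc (energy p2 S (fun m => c₀ + κ * (m : ℤ)) : ℝ) * H ≤
      (energy p2 S (fun m => c₀ + κ * (m : ℤ)) : ℝ) * (C * M) := by gcongr
    _ = C * ((energy p2 S (fun m => c₀ + κ * (m : ℤ)) : ℝ) * M) := by ring
    _ ≤ C * (D2 * (S.card : ℝ) ^ (2 * p2)) := mul_le_mul_of_nonneg_left hen (by linarith)
    _ = _ := by ring

/-- one place, all the families -/
lemma one (d : ℕ) (hd : 1 ≤ d) (δ C : ℝ) (hδ : 0 < δ) (hδ1 : δ ≤ 1) (hC : 1 ≤ C) (B : ℕ) (ε : ℝ) (hε : 0 < ε) :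
    ∃ A : ℕ, ∀ N H : ℕ, A ≤ H → H ≤ N → ∀ (S : Finset ℕ) (s : ℕ → ℤ), Family d δ C H S s → (∀ m ∈ S, |s m| ≤ H) →
      AlmostAll B N ε S s := by
  obtain ⟨A1, h1⟩ := one_primes B ε hε
  obtain ⟨A2, h2⟩ := one_poly B ε hε d hd C hC
  obtain ⟨A3, h3⟩ := one_values B ε hε d hd δ C hδ hδ1 hC
  obtain ⟨A4, h4⟩ := one_parts B ε hε d hd δ C hδ hδ1 hC
  obtain ⟨A5, h5⟩ := one_energy B ε hε d C
  refine ⟨A1 + A2 + A3 + A4 + A5, fun N H hH hHN S s hF hs => ?_⟩
  cases hF with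
  | primes => exact h1 N H (by omega) hHN
  | polynomials x P q1 q2 q3 => exact h2 N H (by omega) hHN x P q1 q2 q3 hs
  | values M F φ S κ c₀ q1 q2 q3 q4 q5 q6 => exact h3 N H (by omega) hHN M F φ S κ c₀ q1 q2 q3 q4 q5 q6 hs
  | parts M F φ S κ c₀ c lam q1 q2 q3 q4 q5 q6 q7 q8 q9 =>
    exact h4 N H (by omega) hHN M F φ S κ c₀ c lam q1 q2 q3 q4 q5 q6 q7 q8 q9 hs
  | energy S s q1 => exact h5 N H (by omega) hHN S s hs q1

/-! ## Tuples of places -/

lemma lam_pm (m : ℤ) : lam m = 1 ∨ lam m = -1 := neg_one_pow_eq_or ℤ _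

open Classical in
/-- the correlations -/
noncomputable def cor {k : ℕ} (T : Set ℕ) (a b : Fin k → ℕ) (s : Fin k → ℤ) (J : Finset (Fin k)) (X : ℕ) : ℝ :=
  ∑ n ∈ Icc 1 X, (if n ∈ T then (1 : ℝ) else 0) * ∏ j ∈ J, (lam (a j * n + b j + s j) : ℝ)

lemma number_mono {ι : Type} {S : Finset ι} {F G : ι → Prop} (h : ∀ m ∈ S, F m → G m) : number S F ≤ number S G := by
  classical
  unfold number
  apply Nat.cast_le.2
  apply card_le_card
  intro m hm
  rw [mem_filter] at hm ⊢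
  exact ⟨hm.1, h m hm.1 hm.2⟩

lemma number_sum {ι : Type} (S : Finset ι) (F : ι → Prop) [DecidablePred F] :
    number S F = ∑ m ∈ S, if F m then (1 : ℝ) else 0 := by
  unfold number
  rw [Finset.sum_boole]
  congr!

lemma indicator {k : ℕ} (u e : Fin k → ℤ) (hu : ∀ j, u j = 1 ∨ u j = -1) (he : ∀ j, e j = 1 ∨ e j = -1) :
    (if ∀ j, u j = e j then (1 : ℝ) else 0) =
      (1 / 2 ^ k) * ∑ J ∈ (univ : Finset (Fin k)).powerset, ∏ j ∈ J, ((e j : ℝ) * (u j : ℝ)) := by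
  rw [← Finset.prod_one_add]
  split_ifs with h
  · have h1 : ∀ j ∈ (univ : Finset (Fin k)), (1 : ℝ) + (e j : ℝ) * (u j : ℝ) = 2 := by
      intro j _
      rw [h j]
      rcases he j with h2 | h2 <;> rw [h2] <;> norm_num
    rw [prod_congr rfl h1, prod_const, card_univ, Fintype.card_fin]
    field_simp
  · push Not at h
    obtain ⟨j, hj⟩ := h
    rw [prod_eq_zero (mem_univ j), mul_zero]
    rcases he j with h2 | h2 <;> rcases hu j with h3 | h3 <;>
      first | exact absurd (h3.trans h2.symm) hj | (rw [h2, h3]; norm_num)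

lemma patterns {k B N : ℕ} {ε : ℝ} (hε : 0 ≤ ε) {T : Set ℕ} {a b : Fin k → ℕ} {s : Fin k → ℤ}
    (h : ∀ J : Finset (Fin k), J.Nonempty → ∀ X : ℕ, (∀ j, a j * X ≤ B * N) → |cor T a b s J X| ≤ ε * N) :
    AllPatterns B N ε T a b s := by
  classical
  intro X hX e he
  have h1 : number (Icc 1 X) (fun n => n ∈ T ∧ ∀ j, lam (a j * n + b j + s j) = e j) =
      (1 / 2 ^ k) * ∑ J ∈ (univ : Finset (Fin k)).powerset, (∏ j ∈ J, (e j : ℝ)) * cor T a b s J X := by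
    rw [number_sum]
    have h2 : ∀ n ∈ Icc 1 X, (if n ∈ T ∧ ∀ j, lam (a j * n + b j + s j) = e j then (1 : ℝ) else 0) =
        (1 / 2 ^ k) * ∑ J ∈ (univ : Finset (Fin k)).powerset, (∏ j ∈ J, (e j : ℝ)) *
          ((if n ∈ T then (1 : ℝ) else 0) * ∏ j ∈ J, (lam (a j * n + b j + s j) : ℝ)) := by
      intro n _
      have h3 := indicator (fun j => lam (a j * n + b j + s j)) e (fun j => lam_pm _) he
      by_cases hn : n ∈ T
      · simp only [hn, true_and, if_true, one_mul]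
        rw [h3]
        congr 1
        apply sum_congr rfl
        intro J _
        rw [prod_mul_distrib]
      · simp [hn]
    rw [sum_congr rfl h2, ← mul_sum, sum_comm]
    congr 1
    apply sum_congr rfl
    intro J _
    unfold cor
    rw [mul_sum]
  have h4 : number (Icc 1 X) (fun n => n ∈ T) = cor T a b s ∅ X := by
    rw [number_sum]
    unfold cor
    apply sum_congr rfl
    intro n _
    rw [prod_empty, mul_one]
  have h5 : (univ : Finset (Fin k)).powerset = insert ∅ ((univ : Finset (Fin k)).powerset.erase ∅) :=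
    (insert_erase (empty_mem_powerset _)).symm
  have h6 : number (Icc 1 X) (fun n => n ∈ T ∧ ∀ j, lam (a j * n + b j + s j) = e j) -
      number (Icc 1 X) (fun n => n ∈ T) / 2 ^ k =
      (1 / 2 ^ k) * ∑ J ∈ (univ : Finset (Fin k)).powerset.erase ∅, (∏ j ∈ J, (e j : ℝ)) * cor T a b s J X := by
    rw [h1, h4, h5, sum_insert (notMem_erase _ _), erase_insert (notMem_erase _ _), prod_empty]
    ring
  rw [h6, abs_mul, abs_of_nonneg (by positivity)]
  have h7 : |∑ J ∈ (univ : Finset (Fin k)).powerset.erase ∅, (∏ j ∈ J, (e j : ℝ)) * cor T a b s J X| ≤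
      2 ^ k * (ε * N) := by
    refine (abs_sum_le_sum_abs _ _).trans ?_
    have h8 : ∀ J ∈ (univ : Finset (Fin k)).powerset.erase ∅, |(∏ j ∈ J, (e j : ℝ)) * cor T a b s J X| ≤ ε * N := by
      intro J hJ
      rw [abs_mul, abs_prod]
      have h9 : ∏ j ∈ J, |(e j : ℝ)| = 1 := by
        apply prod_eq_one
        intro j _
        rcases he j with h2 | h2 <;> rw [h2] <;> norm_num
      rw [h9, one_mul]
      exact h J (nonempty_iff_ne_empty.2 (ne_of_mem_erase hJ)) X hX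
    refine (sum_le_sum h8).trans ?_
    rw [sum_const, nsmul_eq_mul]
    have h9 : (((univ : Finset (Fin k)).powerset.erase ∅).card : ℝ) ≤ 2 ^ k := by
      have h10 := card_erase_le (s := (univ : Finset (Fin k)).powerset) (a := ∅)
      rw [card_powerset, card_univ, Fintype.card_fin] at h10
      exact_mod_cast h10
    exact mul_le_mul_of_nonneg_right h9 (by positivity)
  calc (1 / 2 ^ k : ℝ) * |∑ J ∈ (univ : Finset (Fin k)).powerset.erase ∅, (∏ j ∈ J, (e j : ℝ)) * cor T a b s J X| ≤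
      (1 / 2 ^ k : ℝ) * (2 ^ k * (ε * N)) := by gcongr
    _ = ε * N := by field_simp

lemma fiber {k : ℕ} (S : Fin k → Finset ℕ) (j₀ : Fin k) (f : (Fin k → ℕ) → ℝ) :
    ∑ m ∈ Fintype.piFinset S, ∑ x ∈ S j₀, f (Function.update m j₀ x) =
      ((S j₀).card : ℝ) * ∑ m ∈ Fintype.piFinset S, f m := by
  classical
  have h1 : ((S j₀).card : ℝ) * ∑ m ∈ Fintype.piFinset S, f m =
      ∑ m ∈ Fintype.piFinset S, ∑ _x ∈ S j₀, f m := by
    rw [mul_sum]
    apply sum_congr rfl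
    intro m _
    rw [sum_const, nsmul_eq_mul]
  rw [h1, ← sum_product', ← sum_product']
  have hmem : ∀ q ∈ Fintype.piFinset S ×ˢ S j₀,
      (Function.update q.1 j₀ q.2, q.1 j₀) ∈ Fintype.piFinset S ×ˢ S j₀ := by
    intro q hq
    rw [mem_product, Fintype.mem_piFinset] at hq ⊢
    refine ⟨fun j => ?_, hq.1 j₀⟩
    by_cases hj : j = j₀
    · subst hj
      simpa using hq.2
    · simpa [Function.update_of_ne hj] using hq.1 j
  have hinv : ∀ q ∈ Fintype.piFinset S ×ˢ S j₀,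
      (Function.update (Function.update q.1 j₀ q.2) j₀ (q.1 j₀), Function.update q.1 j₀ q.2 j₀) = q := by
    intro q _
    simp
  exact sum_nbij' (fun q => (Function.update q.1 j₀ q.2, q.1 j₀)) (fun q => (Function.update q.1 j₀ q.2, q.1 j₀))
    hmem hmem hinv hinv (fun q _ => rfl)

lemma exI_lam {m : ℤ} (h : 1 ≤ m) : Pool.Agent.H373R2.T7.exI Pool.Agent.H373R2.T7.liR m = (((lam m : ℤ) : ℝ) : ℂ) := by
  unfold Pool.Agent.H373R2.T7.exI Pool.Agent.H373R2.T7.liR lam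
  rw [if_pos h]
  push_cast
  rfl

/-- one set of places -/
lemma one_set {k B N : ℕ} {ε : ℝ} {T : Set ℕ} {a b : Fin k → ℕ} {S : Fin k → Finset ℕ}
    {s : Fin k → ℕ → ℤ} (ha : ∀ j, 1 ≤ a j) (hb : ∀ j, b j ≤ B * N) (hpos : ∀ j, ∀ m ∈ S j, 0 ≤ (b j : ℤ) + s j m)
    (h : ∀ j, AlmostAll B N ε (S j) (s j)) (J : Finset (Fin k)) (hJ : J.Nonempty) :
    number (Fintype.piFinset S) (fun m => ∃ X : ℕ, (∀ j, a j * X ≤ B * N) ∧
      ε * N < |cor T a b (fun j => s j (m j)) J X|) ≤ ε * (Fintype.piFinset S).card := by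
  classical
  obtain ⟨j₀, hj₀⟩ := hJ
  rcases (S j₀).eq_empty_or_nonempty with hS | hS
  · have h1 : Fintype.piFinset S = ∅ := by
      apply eq_empty_of_forall_notMem
      intro m hm
      rw [Fintype.mem_piFinset] at hm
      have h2 := hm j₀
      rw [hS] at h2
      exact notMem_empty _ h2
    rw [h1]
    simp [number]
  set Bad : (Fin k → ℕ) → Prop := fun m => ∃ X : ℕ, (∀ j, a j * X ≤ B * N) ∧
      ε * N < |cor T a b (fun j => s j (m j)) J X| with hBad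
  have h1 := fiber S j₀ (fun m => if Bad m then (1 : ℝ) else 0)
  rw [← number_sum] at h1
  have h2 : ∀ m ∈ Fintype.piFinset S, ∑ x ∈ S j₀, (if Bad (Function.update m j₀ x) then (1 : ℝ) else 0) ≤
      ε * (S j₀).card := by
    intro m hm
    rw [← number_sum]
    set g : ℕ → ℂ := fun n => (((if n ∈ T then (1 : ℝ) else 0) *
      ∏ j ∈ J.erase j₀, (lam (a j * n + b j + s j (m j)) : ℝ) : ℝ) : ℂ) with hg
    have hg1 : ∀ n, ‖g n‖ ≤ 1 := by
      intro n
      rw [hg]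
      simp only
      rw [Complex.norm_real, Real.norm_eq_abs, abs_mul, abs_prod]
      have h3 : ∏ j ∈ J.erase j₀, |(lam (a j * n + b j + s j (m j)) : ℝ)| = 1 := by
        apply prod_eq_one
        intro j _
        rcases lam_pm (a j * n + b j + s j (m j)) with h2 | h2 <;> rw [h2] <;> norm_num
      rw [h3, mul_one]
      split_ifs <;> norm_num
    refine le_trans ?_ (h j₀ g hg1 (a j₀) (b j₀) (ha j₀) (hb j₀))
    apply number_mono
    intro x hx hbad hsm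
    obtain ⟨X, hX1, hX2⟩ := hbad
    have h3 := hsm X (hX1 j₀)
    have h4 : (∑ n ∈ Icc 1 X, g n * Pool.Agent.H373R2.T7.exI Pool.Agent.H373R2.T7.liR (a j₀ * n + b j₀ + s j₀ x)) =
        ((cor T a b (fun j => s j (Function.update m j₀ x j)) J X : ℝ) : ℂ) := by
      unfold cor
      rw [Complex.ofReal_sum]
      apply sum_congr rfl
      intro n hn
      rw [mem_Icc] at hn
      have h5 : (1 : ℤ) ≤ a j₀ * n + b j₀ + s j₀ x := by
        have h6 := hpos j₀ x hx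
        have h7 : (1 : ℤ) ≤ a j₀ * n := by
          have := Nat.mul_le_mul (ha j₀) hn.1
          rw [mul_one] at this
          exact_mod_cast this
        linarith
      rw [exI_lam h5, hg]
      simp only
      rw [← Complex.ofReal_mul]
      congr 1
      rw [mul_assoc]
      congr 1
      rw [← mul_prod_erase J _ hj₀, mul_comm]
      congr 1
      · simp
      · apply prod_congr rfl
        intro j hj
        rw [Function.update_of_ne (ne_of_mem_erase hj)]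
    rw [h4, Complex.norm_real, Real.norm_eq_abs] at h3
    linarith
  have h3 := sum_le_sum h2
  rw [h1, sum_const, nsmul_eq_mul] at h3
  have hc : (0 : ℝ) < (S j₀).card := by exact_mod_cast hS.card_pos
  have h4 : ((S j₀).card : ℝ) * number (Fintype.piFinset S) Bad ≤
      ((S j₀).card : ℝ) * (ε * (Fintype.piFinset S).card) := by
    refine h3.trans (le_of_eq ?_)
    ring
  exact le_of_mul_le_mul_left h4 hc

/-- Let `k` and, for all `j < k`, `d j ≥ 1`, `0 < δ j ≤ 1`, `C j ≥ 1` and an integer `B` and `ε > 0` be given. There is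
`A` such that for all `N`, all `H j` between `A` and `N`, all the families of places `s j m`, `m ∈ S j`, of the five kinds
above with `|s j m| ≤ H j` (they may be of different kinds for different `j`), all sets `T` of integers, all `a j ≥ 1` and
all `b j` with `H j ≤ b j ≤ B N`, the following holds for all the tuples `m` with `m j ∈ S j`, with at most `ε ∏ #S j`
exceptions: all the `2 ^ k` sign patterns of the Liouville function occur at the places `a j * n + b j + s j (m j)` with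
the expected frequency, for `n ∈ T ∩ {1, ..., X}`, up to `ε N`, for all `X` with `a j * X ≤ B N`. -/
theorem result (k : ℕ) (d : Fin k → ℕ) (hd : ∀ j, 1 ≤ d j) (δ C : Fin k → ℝ) (hδ : ∀ j, 0 < δ j) (hδ1 : ∀ j, δ j ≤ 1)
    (hC : ∀ j, 1 ≤ C j) (B : ℕ) (ε : ℝ) (hε : 0 < ε) :
    ∃ A : ℕ, ∀ (N : ℕ) (H : Fin k → ℕ), (∀ j, A ≤ H j) → (∀ j, H j ≤ N) → ∀ (S : Fin k → Finset ℕ) (s : Fin k → ℕ → ℤ),
      (∀ j, Family (d j) (δ j) (C j) (H j) (S j) (s j)) → (∀ j, ∀ m ∈ S j, |s j m| ≤ H j) →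
      ∀ (T : Set ℕ) (a b : Fin k → ℕ), (∀ j, 1 ≤ a j) → (∀ j, H j ≤ b j) → (∀ j, b j ≤ B * N) →
      number (Fintype.piFinset S) (fun m => ¬ AllPatterns B N ε T a b (fun j => s j (m j))) ≤ ε * ∏ j, (S j).card := by
  classical
  choose A hA using fun j => one (d j) (hd j) (δ j) (C j) (hδ j) (hδ1 j) (hC j) B (ε / 2 ^ k) (by positivity)
  have hAle : ∀ j, A j ≤ ∑ j, A j := fun j => single_le_sum (f := A) (fun _ _ => Nat.zero_le _) (mem_univ j)
  refine ⟨∑ j, A j, fun N H hH hHN S s hF hs T a b ha hb hbN => ?_⟩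
  have hN0 : (0 : ℝ) ≤ N := Nat.cast_nonneg _
  have h2k : (1 : ℝ) ≤ 2 ^ k := one_le_pow₀ (by norm_num)
  have hle : ε / 2 ^ k ≤ ε := div_le_self hε.le h2k
  have hpos : ∀ j, ∀ m ∈ S j, 0 ≤ (b j : ℤ) + s j m := by
    intro j m hm
    have h1 := (abs_le.1 (hs j m hm)).1
    have h2 : (H j : ℤ) ≤ b j := by exact_mod_cast hb j
    linarith
  have h1 := fun (J : Finset (Fin k)) (hJ : J.Nonempty) => one_set (T := T) ha hbN hpos
    (fun j => hA j N (H j) ((hAle j).trans (hH j)) (hHN j) (S j) (s j) (hF j) (hs j)) J hJ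
  have h2 : number (Fintype.piFinset S) (fun m => ¬ AllPatterns B N ε T a b (fun j => s j (m j))) ≤
      ∑ J ∈ (univ : Finset (Fin k)).powerset.erase ∅, number (Fintype.piFinset S) (fun m => ∃ X : ℕ,
        (∀ j, a j * X ≤ B * N) ∧ ε / 2 ^ k * N < |cor T a b (fun j => s j (m j)) J X|) := by
    rw [number_sum, sum_congr rfl (fun J _ => number_sum _ _), sum_comm]
    apply sum_le_sum
    intro m _
    by_cases hm : AllPatterns B N ε T a b (fun j => s j (m j))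
    swap
    · rw [if_pos hm]
      have h3 : ∃ J : Finset (Fin k), J.Nonempty ∧ ∃ X : ℕ, (∀ j, a j * X ≤ B * N) ∧
          ε / 2 ^ k * N < |cor T a b (fun j => s j (m j)) J X| := by
        by_contra hcon
        push Not at hcon
        apply hm
        apply patterns hε.le
        intro J hJ X hX
        refine (hcon J hJ X hX).trans ?_
        gcongr
      obtain ⟨J, hJ, h4⟩ := h3
      have h5 := single_le_sum (f := fun J : Finset (Fin k) => if (∃ X : ℕ, (∀ j, a j * X ≤ B * N) ∧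
          ε / 2 ^ k * N < |cor T a b (fun j => s j (m j)) J X|) then (1 : ℝ) else 0)
        (s := (univ : Finset (Fin k)).powerset.erase ∅) (fun J _ => by positivity)
        (mem_erase.2 ⟨hJ.ne_empty, mem_powerset.2 (subset_univ _)⟩)
      simp only [if_pos h4] at h5
      exact h5
    · rw [if_neg (not_not.2 hm)]
      positivity
  refine h2.trans ?_
  refine (sum_le_sum fun J hJ => h1 J (nonempty_iff_ne_empty.2 (ne_of_mem_erase hJ))).trans ?_
  rw [sum_const, nsmul_eq_mul]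
  have h9 : (((univ : Finset (Fin k)).powerset.erase ∅).card : ℝ) ≤ 2 ^ k := by
    have h10 := card_erase_le (s := (univ : Finset (Fin k)).powerset) (a := ∅)
    rw [card_powerset, card_univ, Fintype.card_fin] at h10
    exact_mod_cast h10
  calc (((univ : Finset (Fin k)).powerset.erase ∅).card : ℝ) * (ε / 2 ^ k * (Fintype.piFinset S).card) ≤
      2 ^ k * (ε / 2 ^ k * (Fintype.piFinset S).card) := by gcongr
    _ = ε * (Fintype.piFinset S).card := by field_simp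
    _ = _ := by rw [Fintype.card_piFinset]

end Pool.Agent.Results.MP_4fffd4_nt.SparsePlaces
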