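import Pool.Agent.Helper38K9.TP.Inf

/-!
# The sign patterns of the Liouville function at typical places

Let `A` be a set of positive upper logarithmic density (for instance all positive integers). There is
one sequence of scales `N 0 < N 1 < ...` such that the following holds for the members `n` of `A` below
`N j`, for all large `j`.

1. Let `S 0, ..., S (k - 1)` be ANY finite sets of integers. For almost all choices of places
`a i ∈ S i` the `2 ^ k` patterns of `λ(n + a 0), ..., λ(n + a (k - 1))` are near to those of fair coins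
in total variation, as soon as `∑ 2 ^ i / |S i|` is small. For instance this is so for almost all
`k`-tuples from any set of `M` places if `2 ^ k` is small against `M`.

2. If even `2 ^ k ∑ 2 ^ i / |S i|` is small, all the patterns occur, each with a frequency near
to `2 ^ (-k)`.

3. Choose the places `a 0, a 1, ...` at random, independently and uniformly from finite sets
`S 0, S 1, ...` with `∑ 2 ^ i / |S i| < ∞`. Almost surely, the patterns at the places
`a r, a (r + 1), ..., a (r + k - 1)` are near to fair coins in total variation, uniformly in `k`, if `r`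
is large.

The proof uses the two point theorem at almost all scales (`Pool.Agent.R509.TT.exc`, starting files).
Along a suitable sequence of scales all the correlations of all orders converge. By Bessel's
inequality the sum over `b ∈ S` of the squares of the limits of the correlations at the places
`b, L`, with any fixed `L`, is bounded; so the mean over `a` of the sum of the squares of the
correlations over all subsets of the places, which is the `L²` norm of the density of the law of the
pattern, is at most `1 + ∑ 2 ^ i / (s |S i|)`.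
-/

set_option autoImplicit false

open scoped Classical

namespace Pool.Agent.Results.MP_4fffd4_nt.TypicalPlaces

open Finset Filter MeasureTheory ProbabilityTheory

/-- the Liouville function `λ(n) = (-1)^Ω(n)` with values in the group `{1, -1}` -/
def lam (n : ℕ) : ℤˣ := (-1) ^ ArithmeticFunction.cardFactors n

/-- the number of the members of `A` below `N` -/
noncomputable def count (A : Set ℕ) (N : ℕ) : ℕ := ((range N).filter fun n => n ∈ A).card

/-- the upper logarithmic density of `A` is larger than `s` -/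
def UpperLogDensityGT (A : Set ℕ) (s : ℝ) : Prop :=
  ∃ t : ℝ, s < t ∧ ∃ᶠ X : ℕ in atTop,
    t * Real.log X ≤ ∑ n ∈ Icc 1 X, if n ∈ A then (1 : ℝ) / n else 0

/-- the frequency of the sign pattern `ε` at the places `a`: the proportion of the `n` with
`λ(n + a i) = ε i` for all `i`, among all the members `n` of `A` below `N` -/
noncomputable def freq (A : Set ℕ) {k : ℕ} (a : Fin k → ℕ) (ε : Fin k → ℤˣ) (N : ℕ) : ℝ :=
  (count {n | n ∈ A ∧ ∀ i, lam (n + a i) = ε i} N : ℝ) / count A N

/-- the sum over the `2 ^ k` patterns of the distance of the frequency from `2 ^ (-k)` (twice the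
distance in total variation from `k` fair coins) -/
noncomputable def bias (A : Set ℕ) {k : ℕ} (a : Fin k → ℕ) (N : ℕ) : ℝ :=
  ∑ ε : Fin k → ℤˣ, |freq A a ε N - 1 / 2 ^ k|

lemma freq_eq (A : Set ℕ) {k : ℕ} (a : Fin k → ℕ) (ε : Fin k → ℤˣ) (N : ℕ) :
    freq A a ε N = Pool.Agent.Helper38K9.TP.fr Pool.Agent.Helper38K9.TP.lam A a ε N := by
  have h : {n | n ∈ A ∧ ∀ i, lam (n + a i) = ε i} =
      {n | n ∈ A ∧ Pool.Agent.Helper38K9.TP.pat Pool.Agent.Helper38K9.TP.lam a n = ε} := by
    ext n
    refine and_congr Iff.rfl ⟨fun h => funext h, fun h i => congrFun h i⟩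
  unfold freq Pool.Agent.Helper38K9.TP.fr
  rw [h]
  rfl

/-- Let the upper logarithmic density of `A` be larger than `s > 0`. There are scales
`N 0 < N 1 < ...` with `count A (N j) ≥ s N j` and the following properties.

1. For all finite nonempty sets `S i` of places, `i < k`, and `η, θ` with
`∑ 2 ^ i / (s |S i|) ≤ η θ ^ 2`: for all but at most `η ∏ |S i|` of the tuples of places `a i ∈ S i`
the patterns at these places have a bias less than `θ` at all the scales `N j` with large `j`.

2. If `2 ^ k ∑ 2 ^ i / (s |S i|) ≤ η θ ^ 2` then for all but at most `η ∏ |S i|` of these tuples every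
pattern has a frequency in `((1 - θ) 2 ^ (-k), (1 + θ) 2 ^ (-k))` at these scales.

3. Let `X 0, X 1, ...` be independent random places, `X i` uniformly distributed on the finite set
`S i`, with `∑ 2 ^ i / |S i| < ∞`. Almost surely, for every `θ > 0` there is an `r` such that for
every `k` the patterns at the places `X r, ..., X (r + k - 1)` have a bias less than `θ` at all the
scales `N j` with large `j`. -/
theorem result (A : Set ℕ) (s : ℝ) (hs : 0 < s) (hA : UpperLogDensityGT A s) :
    ∃ N : ℕ → ℕ, StrictMono N ∧ (∀ j, s * N j ≤ count A (N j)) ∧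
      (∀ (k : ℕ) (S : Fin k → Finset ℕ), (∀ i, (S i).Nonempty) → ∀ η θ : ℝ, 0 < θ →
        (∑ i : Fin k, 2 ^ (i : ℕ) / (s * ((S i).card : ℝ)) ≤ η * θ ^ 2 →
          (((Fintype.piFinset S).filter fun a =>
            ¬ ∀ᶠ j in atTop, bias A a (N j) < θ).card : ℝ) ≤
            η * ∏ i : Fin k, ((S i).card : ℝ)) ∧
        (2 ^ k * ∑ i : Fin k, 2 ^ (i : ℕ) / (s * ((S i).card : ℝ)) ≤ η * θ ^ 2 →
          (((Fintype.piFinset S).filter fun a =>
            ¬ ∀ᶠ j in atTop, ∀ ε, |2 ^ k * freq A a ε (N j) - 1| < θ).card : ℝ) ≤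
            η * ∏ i : Fin k, ((S i).card : ℝ))) ∧
      ∀ (Ω : Type) [MeasurableSpace Ω] (P : Measure Ω) [IsProbabilityMeasure P]
        (S : ℕ → Finset ℕ) (X : ℕ → Ω → ℕ), (∀ i, (S i).Nonempty) → (∀ i, Measurable (X i)) →
        iIndepFun X P → (∀ i, ∀ v ∈ S i, P (X i ⁻¹' {v}) = 1 / ((S i).card : ENNReal)) →
        Summable (fun i : ℕ => (2 : ℝ) ^ i / ((S i).card : ℝ)) →
        ∀ᵐ ω ∂P, ∀ θ : ℝ, 0 < θ → ∃ r : ℕ, ∀ k : ℕ, ∀ᶠ j in atTop,
          bias A (fun i : Fin k => X (r + i) ω) (N j) < θ := by
  obtain ⟨N, hN, hN1, hNs, c, c0, hc, hB⟩ := Pool.Agent.Helper38K9.TP.setup A s hs hA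
  have hne : ∀ j, Pool.Agent.Helper84K9.IS.count A (N j) ≠ 0 := by
    intro j h0
    have h1 := hNs j
    rw [h0] at h1
    have h2 : (1 : ℝ) ≤ N j := by exact_mod_cast hN1 j
    have h3 : 0 < s * N j := by positivity
    simp only [Nat.cast_zero] at h1
    linarith
  have hbias : ∀ {k : ℕ} (a : Fin k → ℕ) (M : ℕ), bias A a M =
      ∑ ε, |Pool.Agent.Helper38K9.TP.fr Pool.Agent.Helper38K9.TP.lam A a ε M - 1 / 2 ^ k| := by
    intro k a M
    unfold bias
    exact sum_congr rfl fun ε _ => by rw [freq_eq]
  refine ⟨N, hN, hNs, fun k S hS η θ hθ => ⟨fun h => ?_, fun h => ?_⟩, ?_⟩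
  · have h1 := Pool.Agent.Helper38K9.TP.markov c c0 hs hB S hS (η := η) (t := θ ^ 2)
      (by positivity) h
    refine le_trans ?_ h1
    refine Nat.cast_le.2 (card_le_card fun a ha => ?_)
    rw [mem_filter] at ha ⊢
    refine ⟨ha.1, ?_⟩
    by_contra h2
    push Not at h2
    apply ha.2
    simp only [hbias]
    exact Pool.Agent.Helper38K9.TP.good_tv hne hc a hθ h2
  · have h1 := Pool.Agent.Helper38K9.TP.markov c c0 hs hB S hS (η := η) (t := θ ^ 2 / 2 ^ k)
      (by positivity) (by
        rw [← mul_div_assoc, le_div_iff₀ (by positivity), mul_comm]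
        exact h)
    refine le_trans ?_ h1
    refine Nat.cast_le.2 (card_le_card fun a ha => ?_)
    rw [mem_filter] at ha ⊢
    refine ⟨ha.1, ?_⟩
    by_contra h2
    push Not at h2
    apply ha.2
    filter_upwards [Pool.Agent.Helper38K9.TP.good_all hne hc a hθ h2] with j hj ε
    have h3 := hj ε
    rw [← freq_eq] at h3
    have h4 : (0 : ℝ) < 2 ^ k := by positivity
    have h5 : 2 ^ k * freq A a ε (N j) - 1 = 2 ^ k * (freq A a ε (N j) - 1 / 2 ^ k) := by
      field_simp
    rw [h5, abs_mul, abs_of_pos h4]
    rw [lt_div_iff₀ h4] at h3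
    linarith
  · intro Ω _ P _ S X hS hX hI hU hsum
    have h1 : ∀ᵐ ω ∂P, ∀ n : ℕ, ∃ r : ℕ, ∀ k : ℕ,
        Pool.Agent.Helper38K9.TP.Q c k (fun i => X (r + i) ω) - 1 < (1 / ((n : ℝ) + 1)) ^ 2 :=
      ae_all_iff.2 fun n =>
        Pool.Agent.Helper38K9.TP.tail c c0 hs hB hS hX hI hU hsum (by positivity)
    filter_upwards [h1] with ω hω θ hθ
    obtain ⟨n, hn⟩ := exists_nat_one_div_lt hθ
    obtain ⟨r, hr⟩ := hω n
    refine ⟨r, fun k => ?_⟩
    simp only [hbias]
    refine Pool.Agent.Helper38K9.TP.good_tv hne hc _ hθ ?_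
    rw [Pool.Agent.Helper38K9.TP.Q_ext c k fun i => X (r + i) ω]
    refine (hr k).trans ?_
    exact pow_lt_pow_left₀ hn (by positivity) two_ne_zero

end Pool.Agent.Results.MP_4fffd4_nt.TypicalPlaces
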